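import Pool.Agent.W251.EX.Defs
import Pool.Agent.W369.GX.Cell

/-!
Project EX (helper251), task EX-CELLX: the averaged cell bound for the polynomials twisted by
arbitrary coefficients which are roots of unity (port of `Pool.Agent.W369.GX.Cell`).
-/

set_option autoImplicit false

namespace Pool.Agent.W721.EX

open Finset Filter Pool.Agent.H376R2.MR Pool.Agent.W78.GA
open Pool.Agent.W251.GX (PF)
open Pool.Agent.W369.GX (cos_shift one_sub_cos_nat)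

variable {t c : ℤ}

/-- one cell -/
lemma cell_le (hD : t ^ 2 < 4 * c) {Ap Bp M : ℕ → Prop} {E : ℕ} {ρ : ℕ → ℤ} {ϖ : ℕ → Qd t c}
    (hE : Ele t c Ap Bp M E ρ ϖ) {N : ℕ} {F : Qd t c → ℂ} (hN : 1 ≤ N) (hF : ∀ z, F z ^ N = 1)
    (C : ℝ) (R H v : ℕ) (hR1 : 1 ≤ R) (k : ℤ)
    (hs : ∀ φ : ℝ, ∑ m ∈ cellM M H v, FR R (((N : ℤ) * k : ℤ) * ang (ϖ m) + φ) / (m : ℝ) ≤ C / v)
    (hC : 0 ≤ C) :
    ‖PF F M ϖ H v k‖ ≤ (1 - 1 / (2 * (R : ℝ) ^ 2 * (N : ℝ) ^ 2)) * mE M H v +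
      C / (2 * (R : ℝ) ^ 3 * (N : ℝ) ^ 2) * (1 / v) := by
  have hRpos : (0 : ℝ) < R := by exact_mod_cast hR1
  have hR1' : (1 : ℝ) ≤ R := by exact_mod_cast hR1
  have hNpos : (0 : ℝ) < N := by exact_mod_cast hN
  have hm0 : 0 ≤ mE M H v := Finset.sum_nonneg fun _ _ => by positivity
  set PP0 : ℂ := ∑ m ∈ cellM M H v, F (ϖ m) * ps k (ϖ m) / (m : ℂ) with hP
  have hPE : ‖PF F M ϖ H v k‖ = ‖PP0‖ := by rw [PF, norm_neg]
  rw [hPE]
  obtain ⟨φ, hφ⟩ : ∃ φ : ℝ, ‖PP0‖ =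
      ∑ m ∈ cellM M H v, Real.cos ((k * ang (ϖ m) + φ) + Complex.arg (F (ϖ m))) / (m : ℝ) := by
    refine ⟨-Complex.arg PP0, ?_⟩
    have h1 : (‖PP0‖ : ℂ) = PP0 * Complex.exp (-(Complex.arg PP0 : ℝ) * Complex.I) := by
      have h0 := Complex.norm_mul_exp_arg_mul_I PP0
      calc (‖PP0‖ : ℂ) = (‖PP0‖ : ℂ) * Complex.exp ((Complex.arg PP0 : ℝ) * Complex.I) *
            Complex.exp (-(Complex.arg PP0 : ℝ) * Complex.I) := by
            rw [mul_assoc, ← Complex.exp_add]; simp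
        _ = PP0 * Complex.exp (-(Complex.arg PP0 : ℝ) * Complex.I) := by rw [h0]
    have h2 : ‖PP0‖ = (PP0 * Complex.exp (-(Complex.arg PP0 : ℝ) * Complex.I)).re := by
      rw [← h1, Complex.ofReal_re]
    set A : ℝ := Complex.arg PP0 with hA
    rw [h2, hP]
    rw [Finset.sum_mul, Complex.re_sum]
    refine Finset.sum_congr rfl fun m hm => ?_
    have hM : M m := by
      classical
      unfold cellM at hm
      exact (Finset.mem_filter.mp hm).2.1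
    have hmpos : m ≠ 0 := by
      obtain ⟨p, q, hp, hq, rfl, -, -⟩ := hE.fac m hM
      exact mul_ne_zero (hE.prA p hp).1.ne_zero (hE.prB q hq).1.ne_zero
    have hϖ : ϖ m ≠ 0 := by
      intro h0
      have := (hE.elt m hM).1
      rw [h0, nm_zero] at this
      exact hmpos this.symm
    have hFn : ‖F (ϖ m)‖ = 1 := by
      have h1 : ‖F (ϖ m)‖ ^ N = 1 := by rw [← norm_pow, hF, norm_one]
      exact (pow_eq_one_iff_of_nonneg (norm_nonneg _) (by omega)).1 h1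
    have hFe : F (ϖ m) = Complex.exp ((Complex.arg (F (ϖ m)) : ℝ) * Complex.I) := by
      have := Complex.norm_mul_exp_arg_mul_I (F (ϖ m))
      rw [hFn, Complex.ofReal_one, one_mul] at this
      exact this.symm
    set B : ℝ := Complex.arg (F (ϖ m)) with hB
    rw [hFe, ps_eq_exp hD hϖ, div_mul_eq_mul_div, ← Complex.exp_add, ← Complex.exp_add]
    have h3 : (B : ℂ) * Complex.I + ((k * ang (ϖ m) : ℝ) : ℂ) * Complex.I +
        -(A : ℂ) * Complex.I = ((k * ang (ϖ m) + -A + B : ℝ) : ℂ) * Complex.I := by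
      push_cast; ring
    rw [h3, show ((m : ℕ) : ℂ) = (((m : ℕ) : ℝ) : ℂ) by push_cast; rfl, Complex.div_ofReal_re,
      Complex.exp_ofReal_mul_I_re]
  have hs' := hs (N * φ)
  have hlow : R * mE M H v - 2 * (R : ℝ) ^ 3 * (N : ℝ) ^ 2 * (mE M H v - ‖PP0‖) ≤
      ∑ m ∈ cellM M H v, FR R (((N : ℤ) * k : ℤ) * ang (ϖ m) + N * φ) / (m : ℝ) := by
    rw [hφ]
    unfold mE
    rw [← Finset.sum_sub_distrib, Finset.mul_sum, Finset.mul_sum, ← Finset.sum_sub_distrib]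
    refine Finset.sum_le_sum fun p _ => ?_
    have e0 : (((N : ℤ) * k : ℤ) : ℝ) * ang (ϖ p) + N * φ = N * (k * ang (ϖ p) + φ) := by
      push_cast; ring
    rw [e0]
    have h := Pool.Agent.H970R2.X.xcell_FR R hR1 (N * (k * ang (ϖ p) + φ))
    rw [← cos_shift N (k * ang (ϖ p) + φ) (F (ϖ p)) hN (hF _)] at h
    have h4 := one_sub_cos_nat N (k * ang (ϖ p) + φ + Complex.arg (F (ϖ p)))
    have hp0 : (0 : ℝ) ≤ 1 / (p : ℝ) := by positivity
    have h5 : R - 2 * (R : ℝ) ^ 3 * (N : ℝ) ^ 2 *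
        (1 - Real.cos (k * ang (ϖ p) + φ + Complex.arg (F (ϖ p)))) ≤
        FR R (N * (k * ang (ϖ p) + φ)) := by
      have h6 : 2 * (R : ℝ) ^ 3 * (1 - Real.cos (N * (k * ang (ϖ p) + φ +
          Complex.arg (F (ϖ p))))) ≤ 2 * (R : ℝ) ^ 3 * ((N : ℝ) ^ 2 *
          (1 - Real.cos (k * ang (ϖ p) + φ + Complex.arg (F (ϖ p))))) :=
        mul_le_mul_of_nonneg_left h4 (by positivity)
      linarith
    have := mul_le_mul_of_nonneg_right h5 hp0
    calc R * (1 / (p : ℝ)) - 2 * (R : ℝ) ^ 3 * (N : ℝ) ^ 2 *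
          (1 / (p : ℝ) - Real.cos (k * ang (ϖ p) + φ + Complex.arg (F (ϖ p))) / (p : ℝ))
        = (R - 2 * (R : ℝ) ^ 3 * (N : ℝ) ^ 2 *
            (1 - Real.cos (k * ang (ϖ p) + φ + Complex.arg (F (ϖ p))))) * (1 / (p : ℝ)) := by ring
      _ ≤ FR R (N * (k * ang (ϖ p) + φ)) * (1 / (p : ℝ)) := this
      _ = FR R (N * (k * ang (ϖ p) + φ)) / (p : ℝ) := by ring
  have h1 : 2 * (R : ℝ) ^ 3 * (N : ℝ) ^ 2 * ‖PP0‖ ≤
      2 * (R : ℝ) ^ 3 * (N : ℝ) ^ 2 * mE M H v - R * mE M H v + C / v := by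
    linarith
  have h2 : 2 * (R : ℝ) ^ 3 * (N : ℝ) ^ 2 * ((1 - 1 / (2 * (R : ℝ) ^ 2 * (N : ℝ) ^ 2)) * mE M H v +
      C / (2 * (R : ℝ) ^ 3 * (N : ℝ) ^ 2) * (1 / v)) =
      2 * (R : ℝ) ^ 3 * (N : ℝ) ^ 2 * mE M H v - R * mE M H v + C / v := by
    have hR0 : (R : ℝ) ≠ 0 := hRpos.ne'
    have hN0 : (N : ℝ) ≠ 0 := hNpos.ne'
    have e : C / (v : ℝ) = C * (1 / v) := by ring
    rw [e]
    field_simp
  rw [← h2] at h1
  exact le_of_mul_le_mul_left h1 (by positivity)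

theorem cellx {t c : ℤ} (hD : t ^ 2 < 4 * c) (hS : S_SELE t c) :
    Pool.Agent.W251.EX.S_CELLX t c := by
  intro Ap Bp M E ρ ϖ hE N F hN hF
  obtain ⟨C₁, hC₁, hsel⟩ := hS Ap Bp M E ρ ϖ hE
  obtain ⟨c₀, hc₀, C, hrich⟩ := hE.rich
  have hN1 : 1 ≤ N := hN
  have hN1' : (1 : ℝ) ≤ N := by exact_mod_cast hN1
  have hNpos : (0 : ℝ) < N := by linarith
  obtain ⟨R, hR⟩ := exists_nat_ge (4 * C₁ / c₀ + 1)
  have hR1' : (1 : ℝ) ≤ R := by
    have : 0 ≤ 4 * C₁ / c₀ := by positivity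
    linarith
  have hR1 : 1 ≤ R := by exact_mod_cast hR1'
  have hRpos : (0 : ℝ) < R := by linarith
  set Q : ℝ := (R : ℝ) ^ 2 * (N : ℝ) ^ 2 with hQ
  have hQpos : 0 < Q := by positivity
  have hQ1 : 1 ≤ Q := by
    have h1 : (1 : ℝ) ≤ (R : ℝ) ^ 2 := one_le_pow₀ hR1'
    have h2 : (1 : ℝ) ≤ (N : ℝ) ^ 2 := one_le_pow₀ hN1'
    calc (1 : ℝ) = 1 * 1 := by ring
      _ ≤ Q := mul_le_mul h1 h2 (by norm_num) (by positivity)
  set K : ℝ := C₁ / (2 * (R : ℝ) ^ 3 * (N : ℝ) ^ 2) with hK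
  have hK0 : 0 < K := by positivity
  have hKQ : K = C₁ / (2 * (R * Q)) := by
    rw [hK, hQ]; congr 1; ring
  have hRC : K / c₀ ≤ 1 / (8 * Q) := by
    have h1 : 4 * C₁ / c₀ ≤ R := by linarith
    rw [div_le_iff₀ hc₀] at h1
    rw [hKQ, div_div, div_le_div_iff₀ (by positivity) (by positivity)]
    have h2 : (8 * Q) * C₁ ≤ (2 * Q) * (R * c₀) := by
      have := mul_le_mul_of_nonneg_left h1 (show 0 ≤ 2 * Q by positivity)
      linarith
    nlinarith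
  -- size of W
  obtain ⟨Λ, hΛ⟩ := exists_nat_ge (Real.exp ((|C| + 8 * Q * K * (1 + |C| / c₀)) / c₀))
  have hΛ1 : (1 : ℝ) ≤ Λ := (Real.one_le_exp (by positivity)).trans hΛ
  have hΛpos : (0 : ℝ) < Λ := by linarith
  have hΛ1' : 1 ≤ Λ := by exact_mod_cast hΛ1
  refine ⟨1 / (4 * Q), by positivity, ?_, Λ, ?_⟩
  · rw [div_le_one (by positivity)]; linarith
  intro M' H hH
  obtain ⟨V₁, hV₁⟩ := hsel (M' + 1) H R hH hR1
  obtain ⟨V₂, hV₂⟩ := exists_nat_ge ((H : ℝ) * Real.log N)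
  refine ⟨max (max V₁ V₂) (max H 1), fun v₀ v₁ hv₀ hv₁ k hk0 hk => ?_⟩
  have hvV : V₁ ≤ v₀ := le_trans (le_trans (le_max_left _ _) (le_max_left _ _)) hv₀
  have hvV2 : V₂ ≤ v₀ := le_trans (le_trans (le_max_right _ _) (le_max_left _ _)) hv₀
  have hvH : H ≤ v₀ := le_trans (le_trans (le_max_left _ _) (le_max_right _ _)) hv₀
  have hv1 : 1 ≤ v₀ := le_trans (le_trans (le_max_right _ _) (le_max_right _ _)) hv₀
  have hv01 : v₀ ≤ v₁ := le_trans (Nat.le_mul_of_pos_left v₀ hΛ1') hv₁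
  have hv0pos : (0 : ℝ) < v₀ := by exact_mod_cast hv1
  have hv1pos : (0 : ℝ) < v₁ := lt_of_lt_of_le hv0pos (by exact_mod_cast hv01)
  have hHpos : (0 : ℝ) < H := by exact_mod_cast hH
  have hcell : ∀ v ∈ Ico v₀ v₁, ‖PF F M ϖ H v k‖ ≤
      (1 - 1 / (2 * Q)) * mE M H v + K * (1 / v) := by
    intro v hv
    have hv2 : v₀ ≤ v := (Finset.mem_Ico.mp hv).1
    have hv2' : (v₀ : ℝ) ≤ v := by exact_mod_cast hv2
    have hNk : ((N : ℤ) * k : ℤ) ≠ 0 := mul_ne_zero (by exact_mod_cast (by omega : N ≠ 0)) hk0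
    have hNkb : |(((N : ℤ) * k : ℤ) : ℝ)| ≤ Real.exp (((M' + 1 : ℕ) : ℝ) * (v : ℝ) / H) := by
      have h1 : |(((N : ℤ) * k : ℤ) : ℝ)| = N * |(k : ℝ)| := by
        push_cast
        rw [abs_mul, Nat.abs_cast]
      have h2 : (N : ℝ) ≤ Real.exp ((v : ℝ) / H) := by
        have h3 : Real.log N ≤ (v : ℝ) / H := by
          rw [le_div_iff₀ hHpos]
          have h4 : (V₂ : ℝ) ≤ v₀ := by exact_mod_cast hvV2
          linarith
        rwa [Real.log_le_iff_le_exp hNpos] at h3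
      have h3 : |(k : ℝ)| ≤ Real.exp (M' * (v : ℝ) / H) := by
        refine hk.trans (Real.exp_le_exp.mpr ?_)
        apply div_le_div_of_nonneg_right _ hHpos.le
        exact mul_le_mul_of_nonneg_left hv2' (Nat.cast_nonneg _)
      rw [h1]
      calc (N : ℝ) * |(k : ℝ)| ≤ Real.exp ((v : ℝ) / H) * Real.exp (M' * (v : ℝ) / H) :=
            mul_le_mul h2 h3 (abs_nonneg _) (Real.exp_pos _).le
        _ = Real.exp (((M' + 1 : ℕ) : ℝ) * (v : ℝ) / H) := by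
            rw [← Real.exp_add]
            congr 1
            push_cast
            ring
    have h := cell_le hD hE hN hF C₁ R H v hR1 k
      (fun φ => hV₁ v (hvV.trans hv2) ((N : ℤ) * k) hNk hNkb φ) hC₁.le
    have e1 : 2 * (R : ℝ) ^ 2 * (N : ℝ) ^ 2 = 2 * Q := by rw [hQ]; ring
    rw [e1] at h
    exact h
  set W : ℝ := ∑ v ∈ Ico v₀ v₁, mE M H v with hW
  set l : ℝ := Real.log ((v₁ : ℝ) / v₀) with hl
  have hWl : c₀ * l - C ≤ W := hrich H v₀ v₁ hH hvH hv01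
  have hlΛ : Real.log Λ ≤ l := by
    rw [hl]
    apply Real.log_le_log hΛpos
    rw [le_div_iff₀ hv0pos]
    exact_mod_cast hv₁
  have hlogΛ : |C| + 8 * Q * K * (1 + |C| / c₀) ≤ c₀ * Real.log Λ := by
    have h1 : (|C| + 8 * Q * K * (1 + |C| / c₀)) / c₀ ≤ Real.log Λ := by
      rw [Real.le_log_iff_exp_le hΛpos]; exact hΛ
    rw [div_le_iff₀ hc₀] at h1
    linarith
  have hCabs := le_abs_self C
  have hWbig : 8 * Q * K * (1 + |C| / c₀) ≤ W := by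
    have : c₀ * Real.log Λ ≤ c₀ * l := mul_le_mul_of_nonneg_left hlΛ hc₀.le
    linarith
  have hlW : l ≤ (W + |C|) / c₀ := by
    rw [le_div_iff₀ hc₀]; linarith
  have hW0 : 0 ≤ W := Finset.sum_nonneg fun _ _ => Finset.sum_nonneg fun _ _ => by positivity
  have hinv := Pool.Agent.W586.GA.sum_inv_le v₀ v₁ hv1 hv01
  calc ∑ v ∈ Ico v₀ v₁, ‖PF F M ϖ H v k‖
      ≤ ∑ v ∈ Ico v₀ v₁, ((1 - 1 / (2 * Q)) * mE M H v + K * (1 / v)) :=
        Finset.sum_le_sum hcell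
    _ = (1 - 1 / (2 * Q)) * W + K * ∑ v ∈ Ico v₀ v₁, 1 / (v : ℝ) := by
        rw [Finset.sum_add_distrib, ← Finset.mul_sum, ← Finset.mul_sum]
    _ ≤ (1 - 1 / (2 * Q)) * W + K * (1 + (W + |C|) / c₀) := by
        have : K * ∑ v ∈ Ico v₀ v₁, 1 / (v : ℝ) ≤ K * (1 + (W + |C|) / c₀) :=
          mul_le_mul_of_nonneg_left (by linarith) hK0.le
        linarith
    _ ≤ (1 - 1 / (4 * Q)) * W := by
        have e1 : K * (1 + (W + |C|) / c₀) = K * (1 + |C| / c₀) + K / c₀ * W := by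
          field_simp
          ring
        have e2 : K * (1 + |C| / c₀) ≤ 1 / (8 * Q) * W := by
          rw [one_div, inv_mul_eq_div, le_div_iff₀ (by positivity)]
          linarith
        have e3 : K / c₀ * W ≤ 1 / (8 * Q) * W := mul_le_mul_of_nonneg_right hRC hW0
        have e4 : 1 / (2 * Q) * W = 1 / (4 * Q) * W +
            (1 / (8 * Q) * W + 1 / (8 * Q) * W) := by
          field_simp
          ring
        have e5 : (1 - 1 / (2 * Q)) * W = W - 1 / (2 * Q) * W := by ring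
        have e6 : (1 - 1 / (4 * Q)) * W = W - 1 / (4 * Q) * W := by ring
        rw [e1, e5, e6]
        linarith

end Pool.Agent.W721.EX
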