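import Pool.Agent.W251.EX.Defs
import Pool.Agent.W327.EC.Final

/-!
Project EX (helper251), task EX-FINN: equidistribution modulo `k` of `Ω(n^2+1)`.
-/

set_option autoImplicit false

namespace Pool.Agent.W721.EX

open Finset Filter
open Pool.Agent.W78.EC (SP wn S_SCNT)
open Pool.Agent.W251.EX (Cd S_CHR S_SLOWQ S_FINN)
open Pool.Agent.W327.ECFinal (TP mem_TP mem_SP sqrt_sq_add_one SP_sub one_notMem_TP tail)
open ArithmeticFunction (cardFactors)

lemma sum_TPc (N : ℕ) (F : ℕ → ℕ → ℂ) :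
    ∑ n ∈ Icc 1 N, ∑ d ∈ Nat.divisors (n ^ 2 + 1), F d ((n ^ 2 + 1) / d) =
      ∑ p ∈ TP N, F p.1 p.2 := by
  rw [Finset.sum_sigma']
  refine Finset.sum_nbij' (fun x => (x.2, (x.1 ^ 2 + 1) / x.2))
    (fun p => ⟨Nat.sqrt (p.1 * p.2), p.1⟩) ?_ ?_ ?_ ?_ ?_
  · rintro ⟨n, d⟩ hx
    rw [mem_sigma, mem_Icc] at hx
    simp only at hx
    rw [mem_TP]
    exact ⟨n, hx.1.1, hx.1.2, Nat.mul_div_cancel' (Nat.dvd_of_mem_divisors hx.2)⟩
  · rintro ⟨a, b⟩ hp
    rw [mem_TP] at hp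
    obtain ⟨n, h1, h2, h3⟩ := hp
    simp only at h3
    rw [mem_sigma, mem_Icc]
    simp only
    rw [h3, sqrt_sq_add_one h1]
    refine ⟨⟨h1, h2⟩, ?_⟩
    rw [Nat.mem_divisors]
    exact ⟨⟨b, h3.symm⟩, by omega⟩
  · rintro ⟨n, d⟩ hx
    rw [mem_sigma, mem_Icc] at hx
    simp only at hx
    simp only
    rw [Nat.mul_div_cancel' (Nat.dvd_of_mem_divisors hx.2), sqrt_sq_add_one hx.1.1]
  · rintro ⟨a, b⟩ hp
    rw [mem_TP] at hp
    obtain ⟨n, h1, h2, h3⟩ := hp
    simp only at h3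
    simp only
    rw [h3, sqrt_sq_add_one h1, ← h3]
    have ha : 0 < a := Nat.pos_of_ne_zero (by rintro rfl; omega)
    rw [Nat.mul_div_cancel_left _ ha]
  · rintro ⟨n, d⟩ _
    rfl

/-- the summand -/
noncomputable def uu (b : ℂ) (p : ℕ × ℕ) : ℂ :=
  b ^ cardFactors p.1 * b ^ cardFactors p.2 / ((max p.1 p.2 : ℕ) : ℂ)

lemma norm_uu {b : ℂ} (hb : ‖b‖ = 1) (p : ℕ × ℕ) : ‖uu b p‖ = 1 / (max p.1 p.2 : ℝ) := by
  unfold uu
  rw [norm_div, norm_mul, norm_pow, norm_pow, hb, one_pow, one_pow, mul_one, Complex.norm_natCast,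
    Nat.cast_max]

/-- the sum over `n` -/
noncomputable def Tl (b : ℂ) (q a N : ℕ) : ℂ :=
  ∑ n ∈ (Icc 1 N).filter (fun n => n ≡ a [MOD q]), b ^ cardFactors (n ^ 2 + 1) * (wn n : ℂ)

lemma Tl_eq (b : ℂ) (q a N : ℕ) : Tl b q a N =
    ∑ p ∈ TP N, if Nat.sqrt (p.1 * p.2) ≡ a [MOD q] then uu b p else 0 := by
  have := sum_TPc N (fun d e => if Nat.sqrt (d * e) ≡ a [MOD q] then uu b (d, e) else 0)
  rw [← this]
  unfold Tl
  rw [Finset.sum_filter]
  refine Finset.sum_congr rfl fun n hn => ?_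
  have hn1 : 1 ≤ n := (mem_Icc.1 hn).1
  have hd : ∀ d ∈ Nat.divisors (n ^ 2 + 1), d * ((n ^ 2 + 1) / d) = n ^ 2 + 1 := fun d hd =>
    Nat.mul_div_cancel' (Nat.dvd_of_mem_divisors hd)
  by_cases hna : n ≡ a [MOD q]
  · rw [if_pos hna]
    have hwn : (wn n : ℂ) = ∑ d ∈ Nat.divisors (n ^ 2 + 1),
        1 / ((max d ((n ^ 2 + 1) / d) : ℕ) : ℂ) := by
      unfold wn
      rw [Complex.ofReal_sum]
      refine Finset.sum_congr rfl fun d _ => ?_
      rw [Complex.ofReal_div, Complex.ofReal_one, Complex.ofReal_natCast]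
    rw [hwn, Finset.mul_sum]
    refine Finset.sum_congr rfl fun d hdm => ?_
    rw [hd d hdm, sqrt_sq_add_one hn1, if_pos hna]
    unfold uu
    simp only
    have hd1 := hd d hdm
    have hd2 : d ≠ 0 := by
      rintro rfl
      simp at hd1
    have hd3 : (n ^ 2 + 1) / d ≠ 0 := by
      intro h
      rw [h] at hd1
      simp at hd1
    have hl : cardFactors (n ^ 2 + 1) = cardFactors d + cardFactors ((n ^ 2 + 1) / d) := by
      rw [← ArithmeticFunction.cardFactors_mul hd2 hd3, hd1]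
    rw [hl, pow_add, mul_one_div]
  · rw [if_neg hna]
    symm
    apply Finset.sum_eq_zero
    intro d hdm
    rw [hd d hdm, sqrt_sq_add_one hn1, if_neg hna]

open scoped Classical in
/-- the sums in `S_CHR` -/
noncomputable def Sr (b : ℂ) (q a r N : ℕ) : ℂ :=
  ∑ p ∈ (SP N).filter (Cd q a r), uu b p

open scoped Classical in
lemma split_r (b : ℂ) {q a N : ℕ} (hq : 1 ≤ q) {p : ℕ × ℕ} (hp : p ∈ (SP N).erase (1, 1)) :
    (if Nat.sqrt (p.1 * p.2) ≡ a [MOD q] then uu b p else 0) =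
      ∑ r ∈ range q, if Cd q a r p then uu b p else 0 := by
  have hpT := SP_sub N hp
  rw [mem_TP] at hpT
  obtain ⟨n, hn1, hn2, hn3⟩ := hpT
  have hcd : ∀ r, Cd q a r p ↔ (n ≡ a [MOD q] ∧ p.1 ≡ r [MOD q]) := by
    intro r
    constructor
    · rintro ⟨n', h1, h2, h3⟩
      have : n' ^ 2 = n ^ 2 := by omega
      have : n' = n := by
        have := Nat.pow_left_injective (n := 2) (by norm_num) this
        exact this
      subst this
      exact ⟨h2, h3⟩
    · rintro ⟨h1, h2⟩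
      exact ⟨n, hn3, h1, h2⟩
  rw [hn3, sqrt_sq_add_one hn1]
  by_cases hna : n ≡ a [MOD q]
  · rw [if_pos hna, Finset.sum_eq_single (p.1 % q)]
    · rw [if_pos]
      rw [hcd]
      exact ⟨hna, (Nat.mod_modEq _ _).symm⟩
    · intro r hr hne
      rw [if_neg]
      rw [hcd]
      rintro ⟨-, h⟩
      apply hne
      have h1 : p.1 % q = r % q := h
      rw [Nat.mod_eq_of_lt (mem_range.1 hr)] at h1
      exact h1.symm
    · intro h
      exact absurd (mem_range.2 (Nat.mod_lt _ hq)) h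
  · rw [if_neg hna]
    symm
    apply Finset.sum_eq_zero
    intro r _
    rw [if_neg]
    rw [hcd]
    exact fun h => hna h.1

open scoped Classical in
lemma Tl_bound (h3 : S_SCNT) : ∃ C : ℝ, 0 ≤ C ∧ ∀ (b : ℂ), ‖b‖ = 1 → ∀ q a N : ℕ, 1 ≤ q → 1 ≤ N →
    ‖Tl b q a N - ∑ r ∈ range q, Sr b q a r N‖ ≤ C + q := by
  obtain ⟨C, hC0, hC⟩ := tail h3
  refine ⟨C, hC0, fun b hb q a N hq hN => ?_⟩
  set v : ℕ × ℕ → ℂ := fun p => if Nat.sqrt (p.1 * p.2) ≡ a [MOD q] then uu b p else 0 with hv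
  have hsplit := Finset.sum_sdiff (SP_sub N) (f := v)
  have h11 : ((1, 1) : ℕ × ℕ) ∈ SP N := by
    rw [mem_SP]
    exact ⟨le_rfl, by simp only; omega, le_rfl, by simp only; omega, 0, by norm_num⟩
  have hS : ∀ r, Sr b q a r N = (if Cd q a r (1, 1) then uu b (1, 1) else 0) +
      ∑ p ∈ (SP N).erase (1, 1), if Cd q a r p then uu b p else 0 := by
    intro r
    unfold Sr
    rw [Finset.sum_filter]
    exact (Finset.add_sum_erase (SP N) _ h11).symm
  have h1 : ∑ p ∈ (SP N).erase (1, 1), v p =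
      ∑ r ∈ range q, ∑ p ∈ (SP N).erase (1, 1), if Cd q a r p then uu b p else 0 := by
    rw [Finset.sum_comm]
    exact Finset.sum_congr rfl fun p hp => split_r b hq hp
  have h2 : Tl b q a N - ∑ r ∈ range q, Sr b q a r N =
      ∑ p ∈ TP N \ (SP N).erase (1, 1), v p -
        ∑ r ∈ range q, (if Cd q a r (1, 1) then uu b (1, 1) else 0) := by
    rw [Tl_eq, ← hsplit, h1]
    simp only [hS]
    rw [Finset.sum_add_distrib]
    ring
  rw [h2]
  refine (norm_sub_le _ _).trans (add_le_add ?_ ?_)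
  · refine (norm_sum_le _ _).trans ((Finset.sum_le_sum ?_).trans (hC N hN))
    intro p _
    simp only [hv]
    split_ifs
    · rw [norm_uu hb]
    · rw [norm_zero]
      positivity
  · refine (norm_sum_le _ _).trans ?_
    have : ∀ r ∈ range q, ‖(if Cd q a r (1, 1) then uu b (1, 1) else 0 : ℂ)‖ ≤ 1 := by
      intro r _
      split_ifs
      · rw [norm_uu hb]
        norm_num
      · rw [norm_zero]
        norm_num
    refine (Finset.sum_le_sum this).trans ?_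
    simp

lemma Tl_tendsto (h : S_CHR) (h3 : S_SCNT) {k : ℕ} (hk : 1 ≤ k) {b : ℂ} (hbk : b ^ k = 1)
    (hb1 : b ≠ 1) {q : ℕ} (hq : 1 ≤ q) (a : ℕ) :
    Tendsto (fun N : ℕ => ‖Tl b q a N‖ / Real.log N) atTop (nhds 0) := by
  classical
  have hb : ‖b‖ = 1 := by
    have h1 : ‖b‖ ^ k = 1 := by rw [← norm_pow, hbk, norm_one]
    exact (pow_eq_one_iff_of_nonneg (norm_nonneg b) (by omega)).1 h1
  obtain ⟨C, hC0, hC⟩ := Tl_bound h3
  have hS : ∀ r, Tendsto (fun N : ℕ => ‖Sr b q a r N‖ / Real.log N) atTop (nhds 0) := by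
    intro r
    have h1 := (h k b b hk hbk hbk (Or.inl hb1) q a r hq).norm
    rw [norm_zero] at h1
    refine h1.congr' ?_
    filter_upwards [eventually_ge_atTop 1] with N hN
    rw [norm_div, Complex.norm_real, Real.norm_eq_abs,
      abs_of_nonneg (Real.log_natCast_nonneg N)]
    rfl
  have hlogt : Tendsto (fun N : ℕ => Real.log N) atTop atTop :=
    Real.tendsto_log_atTop.comp tendsto_natCast_atTop_atTop
  have hc0 : Tendsto (fun N : ℕ => (C + q) / Real.log N) atTop (nhds 0) :=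
    hlogt.const_div_atTop _
  have hsum : Tendsto (fun N : ℕ => ∑ r ∈ range q, ‖Sr b q a r N‖ / Real.log N +
      (C + q) / Real.log N) atTop (nhds 0) := by
    have := (tendsto_finsetSum (range q) (fun r _ => hS r)).add hc0
    simpa using this
  refine squeeze_zero' ?_ ?_ hsum
  · filter_upwards with N
    exact div_nonneg (norm_nonneg _) (Real.log_natCast_nonneg N)
  · filter_upwards [eventually_ge_atTop 2] with N hN
    have hlog : 0 < Real.log N := Real.log_pos (by exact_mod_cast hN)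
    rw [← Finset.sum_div, ← add_div]
    apply div_le_div_of_nonneg_right _ hlog.le
    have h1 := hC b hb q a N hq (by omega)
    have h2 : ‖Tl b q a N‖ ≤ ‖∑ r ∈ range q, Sr b q a r N‖ +
        ‖Tl b q a N - ∑ r ∈ range q, Sr b q a r N‖ := by
      have : Tl b q a N = ∑ r ∈ range q, Sr b q a r N +
        (Tl b q a N - ∑ r ∈ range q, Sr b q a r N) := by ring
      calc ‖Tl b q a N‖ = ‖∑ r ∈ range q, Sr b q a r N +
            (Tl b q a N - ∑ r ∈ range q, Sr b q a r N)‖ := by rw [← this]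
        _ ≤ _ := norm_add_le _ _
    have h3 : ‖∑ r ∈ range q, Sr b q a r N‖ ≤ ∑ r ∈ range q, ‖Sr b q a r N‖ := norm_sum_le _ _
    linarith

/-- orthogonality -/
lemma orth {k : ℕ} (hk : 1 ≤ k) {ζ : ℂ} (hζ : IsPrimitiveRoot ζ k) (Om j : ℕ) :
    ∑ l ∈ range k, (ζ ^ l) ^ ((k - 1) * j) * (ζ ^ l) ^ Om = if Om ≡ j [MOD k] then (k : ℂ) else 0 := by
  have h1 : ∀ l, (ζ ^ l) ^ ((k - 1) * j) * (ζ ^ l) ^ Om = (ζ ^ (Om + (k - 1) * j)) ^ l := by
    intro l
    rw [← pow_add, ← pow_mul, ← pow_mul]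
    congr 1
    ring
  simp only [h1]
  have h2 : k ∣ Om + (k - 1) * j ↔ Om ≡ j [MOD k] := by
    have e : Om + (k - 1) * j + j = Om + k * j := by
      obtain ⟨k', rfl⟩ : ∃ k', k = k' + 1 := ⟨k - 1, by omega⟩
      simp only [Nat.add_sub_cancel]
      ring
    constructor
    · intro h
      have h3 : Om + (k - 1) * j ≡ 0 [MOD k] := (Nat.modEq_zero_iff_dvd).2 h
      have h4 := h3.add_right j
      rw [e, zero_add] at h4
      have h5 : Om + k * j ≡ Om [MOD k] := by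
        unfold Nat.ModEq
        simp
      exact h5.symm.trans h4
    · intro h
      have h5 : Om + k * j ≡ Om [MOD k] := by
        unfold Nat.ModEq
        simp
      have h6 : Om + (k - 1) * j + j ≡ 0 + j [MOD k] := by
        rw [e, zero_add]
        exact h5.trans h
      exact (Nat.modEq_zero_iff_dvd).1 (Nat.ModEq.add_right_cancel' j h6)
  by_cases hd : Om ≡ j [MOD k]
  · rw [if_pos hd]
    have h3 : ζ ^ (Om + (k - 1) * j) = 1 := (hζ.pow_eq_one_iff_dvd _).2 (h2.2 hd)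
    rw [h3]
    simp
  · rw [if_neg hd]
    have h3 : ζ ^ (Om + (k - 1) * j) ≠ 1 := fun h => hd (h2.1 ((hζ.pow_eq_one_iff_dvd _).1 h))
    have h4 : (ζ ^ (Om + (k - 1) * j)) ^ k = 1 := by
      rw [← pow_mul, mul_comm, pow_mul, hζ.pow_eq_one, one_pow]
    rw [geom_sum_eq h3, h4, sub_self, zero_div]

theorem finn (h : S_CHR) (h2 : S_SLOWQ) (h3 : S_SCNT) : S_FINN := by
  intro k hk q a hq j
  obtain ⟨c, hc, N₀, hW⟩ := h2 q a hq
  set ζ : ℂ := Complex.exp (2 * Real.pi * Complex.I / k) with hζd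
  have hζ : IsPrimitiveRoot ζ k := Complex.isPrimitiveRoot_exp k (by omega)
  set W : ℕ → ℝ := fun N => ∑ n ∈ (Icc 1 N).filter (fun n => n ≡ a [MOD q]), wn n with hWd
  set J : ℕ → ℝ := fun N => ∑ n ∈ (Icc 1 N).filter (fun n => n ≡ a [MOD q] ∧
    cardFactors (n ^ 2 + 1) ≡ j [MOD k]), wn n with hJd
  have hkpos : (0:ℝ) < k := by exact_mod_cast hk
  have hJ : ∀ N, ((k : ℝ) * J N - W N : ℝ) =
      ∑ l ∈ Ico 1 k, (ζ ^ l) ^ ((k - 1) * j) * Tl (ζ ^ l) q a N := by
    intro N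
    have h4 : ((k : ℂ) * (J N : ℂ)) =
        ∑ l ∈ range k, (ζ ^ l) ^ ((k - 1) * j) * Tl (ζ ^ l) q a N := by
      unfold Tl
      simp only [Finset.mul_sum]
      rw [Finset.sum_comm]
      simp only [hJd]
      push_cast
      rw [Finset.mul_sum, ← Finset.filter_filter, Finset.sum_filter]
      refine Finset.sum_congr rfl fun n _ => ?_
      have h5 := orth hk hζ (cardFactors (n ^ 2 + 1)) j
      have h6 : ∑ l ∈ range k, (ζ ^ l) ^ ((k - 1) * j) *
          ((ζ ^ l) ^ cardFactors (n ^ 2 + 1) * (wn n : ℂ)) =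
          (∑ l ∈ range k, (ζ ^ l) ^ ((k - 1) * j) * (ζ ^ l) ^ cardFactors (n ^ 2 + 1)) *
            (wn n : ℂ) := by
        rw [Finset.sum_mul]
        refine Finset.sum_congr rfl fun l _ => ?_
        ring
      rw [h6, h5]
      split_ifs
      · rfl
      · rw [zero_mul]
    have h7 : Tl (ζ ^ 0) q a N = (W N : ℂ) := by
      unfold Tl
      simp only [pow_zero, one_pow, one_mul, hWd]
      push_cast
      rfl
    have h8 : ∑ l ∈ range k, (ζ ^ l) ^ ((k - 1) * j) * Tl (ζ ^ l) q a N =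
        (W N : ℂ) + ∑ l ∈ Ico 1 k, (ζ ^ l) ^ ((k - 1) * j) * Tl (ζ ^ l) q a N := by
      rw [Finset.range_eq_Ico, Finset.sum_eq_sum_Ico_succ_bot (by omega), h7, pow_zero, one_pow,
        one_mul]
    push_cast
    rw [h4, h8]
    ring
  have hζn : ‖ζ‖ = 1 := hζ.norm'_eq_one (by omega)
  have hb : ∀ N, |(k : ℝ) * J N - W N| ≤ ∑ l ∈ Ico 1 k, ‖Tl (ζ ^ l) q a N‖ := by
    intro N
    have h4 : |(k : ℝ) * J N - W N| = ‖(((k : ℝ) * J N - W N : ℝ) : ℂ)‖ := by
      rw [Complex.norm_real, Real.norm_eq_abs]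
    rw [h4, hJ]
    refine (norm_sum_le _ _).trans (Finset.sum_le_sum fun l _ => ?_)
    rw [norm_mul, norm_pow, norm_pow, hζn, one_pow, one_pow, one_mul]
  have hT : ∀ l ∈ Ico 1 k, Tendsto (fun N : ℕ => ‖Tl (ζ ^ l) q a N‖ / Real.log N) atTop
      (nhds 0) := by
    intro l hl
    rw [mem_Ico] at hl
    apply Tl_tendsto h h3 hk _ _ hq a
    · rw [← pow_mul, mul_comm, pow_mul, hζ.pow_eq_one, one_pow]
    · intro h5
      have := (hζ.pow_eq_one_iff_dvd _).1 h5
      have := Nat.le_of_dvd (by omega) this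
      omega
  have hsum : Tendsto (fun N : ℕ => (∑ l ∈ Ico 1 k, ‖Tl (ζ ^ l) q a N‖ / Real.log N) *
      (1 / (c * k))) atTop (nhds 0) := by
    have := (tendsto_finsetSum (Ico 1 k) hT).mul_const (1 / (c * k))
    simpa using this
  rw [tendsto_iff_norm_sub_tendsto_zero]
  refine squeeze_zero' (Eventually.of_forall fun N => norm_nonneg _) ?_ hsum
  filter_upwards [eventually_ge_atTop 2, eventually_ge_atTop N₀] with N hN hN0
  have hlog : 0 < Real.log N := Real.log_pos (by exact_mod_cast hN)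
  have hWN : c * Real.log N ≤ W N := hW N hN0
  have hWpos : 0 < W N := lt_of_lt_of_le (mul_pos hc hlog) hWN
  change ‖J N / W N - 1 / (k : ℝ)‖ ≤ _
  have e : J N / W N - 1 / (k : ℝ) = ((k : ℝ) * J N - W N) / (W N * k) := by
    field_simp
  rw [e, norm_div, Real.norm_eq_abs, Real.norm_eq_abs, abs_of_pos (by positivity : 0 < W N * k)]
  have hS0 : 0 ≤ ∑ l ∈ Ico 1 k, ‖Tl (ζ ^ l) q a N‖ := Finset.sum_nonneg fun _ _ => norm_nonneg _
  calc |(k : ℝ) * J N - W N| / (W N * k) ≤ (∑ l ∈ Ico 1 k, ‖Tl (ζ ^ l) q a N‖) / (W N * k) :=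
        div_le_div_of_nonneg_right (hb N) (by positivity)
    _ ≤ (∑ l ∈ Ico 1 k, ‖Tl (ζ ^ l) q a N‖) / (c * Real.log N * k) := by
        apply div_le_div_of_nonneg_left hS0 (by positivity)
        exact mul_le_mul_of_nonneg_right hWN hkpos.le
    _ = (∑ l ∈ Ico 1 k, ‖Tl (ζ ^ l) q a N‖ / Real.log N) * (1 / (c * k)) := by
        rw [← Finset.sum_div]
        field_simp

end Pool.Agent.W721.EX
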